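import Pool.Agent.Helper71.SD.Goals

/-!
# Automorphisms of the cube close to the identity near one vertex (packet AUTC of MP_dcced1_gt)
-/

namespace Pool.Agent.Helper71.SD.AUTC

open Pool.Agent.Helper71.AHtpy SimpleGraph

theorem mem_aff (π : Equiv.Perm E) (w S : Finset E) (i : E) :
    i ∈ aff π.toEmbedding w S ↔ ¬ (i ∈ w ↔ π.symm i ∈ S) := by
  unfold aff
  rw [Finset.mem_symmDiff, Finset.mem_map_equiv]
  tauto

theorem mem_sd (S T : Finset E) (i : E) : i ∈ symmDiff S T ↔ ¬ (i ∈ S ↔ i ∈ T) := by
  rw [Finset.mem_symmDiff]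
  tauto

theorem mem_tog' (a i : E) (S : Finset E) : i ∈ tog a S ↔ ¬ (i ∈ S ↔ i = a) := by
  unfold tog
  rw [mem_sd, Finset.mem_singleton]

theorem solve1 {a b c : Prop} (h : ¬ (¬ (a ↔ b) ↔ c)) : a ↔ (c ↔ b) := by
  by_cases ha : a <;> by_cases hb : b <;> by_cases hc : c <;> simp_all

theorem solve2 {a b c : Prop} (h : ¬ ¬ (¬ (a ↔ b) ↔ c)) : a ↔ ¬ (b ↔ c) := by
  by_cases ha : a <;> by_cases hb : b <;> by_cases hc : c <;> simp_all

theorem solve3 {a b : Prop} (h : ¬ (a ↔ b)) : a ↔ ¬ b := by
  by_cases ha : a <;> by_cases hb : b <;> simp_all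

theorem solve4 {a b c : Prop} (h : ¬ ¬ (¬ (a ↔ b) ↔ c)) :
    ¬ (¬ (a ↔ ¬ (b ↔ False)) ↔ ¬ (c ↔ True)) := by
  by_cases ha : a <;> by_cases hb : b <;> by_cases hc : c <;> simp_all

theorem solve5 {a b c : Prop} (h : ¬ ¬ (¬ (a ↔ b) ↔ c)) :
    ¬ (¬ (a ↔ ¬ (b ↔ True)) ↔ ¬ (c ↔ False)) := by
  by_cases ha : a <;> by_cases hb : b <;> by_cases hc : c <;> simp_all

theorem solve6 {a b : Prop} (h : ¬ ¬ (¬ (a ↔ b) ↔ b)) : ¬ a := by
  by_cases ha : a <;> by_cases hb : b <;> simp_all

theorem autc : S_AUTC := by
  intro π w S₀ h
  set D : Finset E := symmDiff (aff π.toEmbedding w S₀) S₀ with hDdef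
  have hD : ∀ i, i ∈ D ↔ ¬ (¬ (i ∈ w ↔ π.symm i ∈ S₀) ↔ i ∈ S₀) := by
    intro i
    rw [hDdef, mem_sd, mem_aff]
  have hD1 : D.card ≤ 1 := by
    have h0 := h ∅ (by simp)
    have he : symmDiff S₀ (∅ : Finset E) = S₀ := by
      ext i
      rw [mem_sd]
      simp
    rw [he] at h0
    exact h0
  have key : ∀ k, π k ≠ k → k ∈ D ∨ π k ∈ D := by
    intro k hk
    by_contra hc
    push Not at hc
    obtain ⟨hc1, hc2⟩ := hc
    have hk2 : π.symm k ≠ k := by
      intro h2
      apply hk
      conv_lhs => rw [← h2]
      simp
    have h1 := h {k} (by simp)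
    rw [Finset.card_le_one] at h1
    have m1 : k ∈ symmDiff (aff π.toEmbedding w (symmDiff S₀ {k})) (symmDiff S₀ {k}) := by
      rw [mem_sd, mem_aff, mem_sd, mem_sd, Finset.mem_singleton, Finset.mem_singleton]
      rw [hD] at hc1
      have e1 : (k = k) = True := eq_self k
      have e2 : (π.symm k = k) = False := by simpa using hk2
      rw [e1, e2]
      exact solve4 hc1
    have m2 : π k ∈ symmDiff (aff π.toEmbedding w (symmDiff S₀ {k})) (symmDiff S₀ {k}) := by
      rw [mem_sd, mem_aff, mem_sd, mem_sd, Finset.mem_singleton, Finset.mem_singleton]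
      rw [hD] at hc2
      have e1 : (π.symm (π k) = k) = True := by simp
      have e2 : (π k = k) = False := by simpa using hk
      rw [e1, e2]
      exact solve5 hc2
    exact hk (h1 _ m2 _ m1)
  rcases Finset.card_le_one_iff_subset_singleton.1 hD1 with ⟨d, hd⟩
  have hDd : ∀ i, i ∈ D → i = d := fun i hi => by simpa using hd hi
  have key2 : ∀ k, k ≠ d → π k ≠ d → π k = k := by
    intro k h1 h2
    by_contra h3
    rcases key k h3 with h4 | h4
    · exact h1 (hDd _ h4)
    · exact h2 (hDd _ h4)
  by_cases hdD : d ∈ D
  · -- `D = {d}`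
    have hDi : ∀ i, i ∈ D ↔ i = d := fun i => ⟨hDd i, fun hi => hi ▸ hdD⟩
    by_cases hpd : π d = d
    · right; left
      have hpi : ∀ k, π k = k := by
        intro k
        by_cases hk : k = d
        · rw [hk, hpd]
        · exact key2 k hk fun h2 => hk (π.injective (h2.trans hpd.symm))
      have hps : ∀ k, π.symm k = k := fun k => by
        rw [Equiv.symm_apply_eq, hpi]
      refine ⟨d, fun S => ?_⟩
      have wi : ∀ i, i ∈ w ↔ i = d := by
        intro i
        have h3 := hD i
        rw [hDi, hps] at h3
        constructor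
        · intro h4
          by_contra h5
          exact solve6 (fun h6 => h5 (h3.2 h6)) h4
        · intro h4
          have h6 := solve1 (h3.1 h4)
          exact h6.2 Iff.rfl
      ext i
      rw [mem_aff, mem_tog', hps, wi]
      constructor
      · intro h1 h2
        exact h1 h2.symm
      · intro h1 h2
        exact h1 h2.symm
    · right; right
      obtain ⟨j, hj⟩ : ∃ j, π j = d := ⟨π.symm d, by simp⟩
      have hjd : j ≠ d := fun hjd => hpd (by rw [← hjd, hj, hjd])
      have hfix : ∀ k, k ≠ d → k ≠ j → π k = k := fun k h1 h2 =>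
        key2 k h1 fun h3 => h2 (π.injective (h3.trans hj.symm))
      have hdj : π d = j := by
        by_contra h1
        have h2 := hfix (π d) hpd h1
        exact hpd (π.injective h2)
      have sd' : π.symm d = j := by rw [Equiv.symm_apply_eq, hj]
      have sj' : π.symm j = d := by rw [Equiv.symm_apply_eq, hdj]
      have sk' : ∀ k, k ≠ d → k ≠ j → π.symm k = k := fun k h1 h2 => by
        rw [Equiv.symm_apply_eq, hfix k h1 h2]
      have wd := hD d
      rw [hDi, sd'] at wd
      have wj := hD j
      rw [hDi, sj'] at wj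
      have wk : ∀ k, k ≠ d → k ≠ j → k ∉ w := by
        intro k h1 h2
        have h3 := hD k
        rw [hDi, sk' k h1 h2] at h3
        exact solve6 fun h6 => h1 (h3.2 h6)
      have e2 : ¬ j = d := hjd
      have e3 : ¬ d = j := hjd.symm
      have wd' : (d ∈ w ↔ (d ∈ S₀ ↔ j ∈ S₀)) := solve1 (wd.1 rfl)
      have wj' : (j ∈ w ↔ ¬ (d ∈ S₀ ↔ j ∈ S₀)) := solve2 fun h1 => hjd (wj.2 h1)
      clear h key key2 hD hDi hDd wd wj
      by_cases hc : (d ∈ S₀ ↔ j ∈ S₀)
      · have hdw : d ∈ w := wd'.2 hc
        have hjw : j ∉ w := fun h1 => wj'.1 h1 hc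
        refine ⟨d, j, hjd.symm, fun S => ⟨fun hS => ?_, fun hS => ?_⟩⟩
        · ext i
          rw [mem_aff, mem_tog']
          by_cases hi : i = d
          · subst hi
            rw [sd', hS]
            simp only [hdw, true_iff, eq_self, iff_true]
          · by_cases hi' : i = j
            · subst hi'
              rw [sj', hS]
              simp only [hjw, false_iff, e2, iff_false]
            · rw [sk' i hi hi']
              simp only [wk i hi hi', false_iff, hi, iff_false]
        · have hS' := solve3 hS
          ext i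
          rw [mem_aff, mem_tog']
          by_cases hi : i = d
          · subst hi
            rw [sd', hS']
            simp only [hdw, true_iff, e3, iff_false, not_not]
          · by_cases hi' : i = j
            · subst hi'
              rw [sj', hS']
              simp only [hjw, false_iff, eq_self, iff_true, not_not]
            · rw [sk' i hi hi']
              simp only [wk i hi hi', false_iff, hi', iff_false]
      · have hdw : d ∉ w := fun h1 => hc (wd'.1 h1)
        have hjw : j ∈ w := wj'.2 hc
        refine ⟨j, d, hjd, fun S => ⟨fun hS => ?_, fun hS => ?_⟩⟩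
        · ext i
          rw [mem_aff, mem_tog']
          by_cases hi : i = d
          · subst hi
            rw [sd', hS]
            simp only [hdw, false_iff, e3, iff_false]
          · by_cases hi' : i = j
            · subst hi'
              rw [sj', ← hS]
              simp only [hjw, true_iff, eq_self, iff_true]
            · rw [sk' i hi hi']
              simp only [wk i hi hi', false_iff, hi', iff_false]
        · have hS' := solve3 hS
          ext i
          rw [mem_aff, mem_tog']
          by_cases hi : i = d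
          · subst hi
            rw [sd', hS']
            simp only [hdw, false_iff, eq_self, iff_true, not_not]
          · by_cases hi' : i = j
            · subst hi'
              rw [sj', hS']
              simp only [hjw, true_iff, e2, iff_false, not_not]
            · rw [sk' i hi hi']
              simp only [wk i hi hi', false_iff, hi, iff_false]
  · -- `D = ∅`
    left
    have hDe : ∀ i, i ∉ D := fun i hi => by
      have := hDd i hi
      subst this
      exact hdD hi
    have hpi : ∀ k, π k = k := by
      intro k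
      by_contra h1
      rcases key k h1 with h2 | h2
      · exact hDe _ h2
      · exact hDe _ h2
    have hps : ∀ k, π.symm k = k := fun k => by
      rw [Equiv.symm_apply_eq, hpi]
    intro S
    ext i
    rw [mem_aff]
    have h3 := hD i
    have h4 := hDe i
    rw [hps] at h3 ⊢
    have h5 : i ∉ w := solve6 fun h6 => h4 (h3.2 h6)
    simp only [h5, false_iff, not_not]

end Pool.Agent.Helper71.SD.AUTC
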